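import Pool.Agent.Q210.KF.Nc

/-!
# The even and the odd part of the noncommutative motive of a Kuznetsov component

Let `W` be a smooth hypersurface of ARBITRARY dimension `n` and degree `d ≤ n + 2` with the equation
`f_1 + f_2 + ⋯ + f_r = 0`, the `f_j` forms in disjoint sets of variables, where every `f_j` has at most
two variables, or `d = 3` and every `f_j` has at most four variables (and `f_j` may be replaced by
`f_j - u_j^d`, `u_j` a further variable).

We determine exactly the even and the odd part of the noncommutative motive of the Kuznetsov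
component of `W`: the first exterior power of the even part and the first symmetric power of the odd
part which vanish.
-/

open CategoryTheory MonoidalCategory Limits

universe v u w w' v' u'

namespace Pool.Agent.Results.MP_6e5bed_ag.ExactKuznetsovParts

open Pool.Agent.Q28.HJ Pool.Agent.Y112.SR Pool.Agent.Y112.KD Pool.Agent.Q20.Kf Pool.Agent.Q210.KF

/-- **The exact parts of the Kuznetsov components of sums of small forms.** Let `𝓜` be the Chow
motives and `𝓝` the noncommutative Chow motives over an algebraically closed field of characteristic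
zero (rational coefficients), `R` periodic cyclic homology on `𝓝`, `T` the hypersurfaces, abelian
varieties, the functor `U : 𝓜 ⥤ 𝓝` and the Kuznetsov components (`hT`: known facts). Let `W` be a
hypersurface of degree `1 ≤ d ≤ n + 2`, `n = dim W`, which is a sum, in disjoint sets of variables,
of binary forms or of cubic forms in at most four variables (`IsAbelianSum`), and `b` its primitive
Betti number. Then the motive of `Ku(W)` is `E ⊕ O`, where: for even `n`, `Λ^(b+d) E = 0`,
`Λ^(b+d-1) E ≠ 0` and `O = 0`; for odd `n`, `Λ^d E = 0`, `Λ^(d-1) E ≠ 0`, `Sym^(b+1) O = 0` and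
`Sym^b O ≠ 0`. -/
theorem result {𝓜 : Type u} [Category.{v} 𝓜] [Preadditive 𝓜] [Linear ℚ 𝓜] [MonoidalCategory 𝓜]
    [MonoidalPreadditive 𝓜] [MonoidalLinear ℚ 𝓜] [SymmetricCategory 𝓜]
    {𝓝 : Type u'} [Category.{v'} 𝓝] [Preadditive 𝓝] [Linear ℚ 𝓝] [MonoidalCategory 𝓝]
    [MonoidalPreadditive 𝓝] [MonoidalLinear ℚ 𝓝] [SymmetricCategory 𝓝] [RightRigidCategory 𝓝]
    [IsIdempotentComplete 𝓝] (hU : UnitQ 𝓝) {K : Type w'} [Field K] (R : SuperRealisation 𝓝 K)
    (T : NCData.{v, u, w, v', u'} 𝓜 𝓝) [T.U.Additive] [T.U.Linear ℚ] [T.U.Braided]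
    (hT : T.Facts R) (W : T.Hyp) (hW : T.IsAbelianSum W) (hd : T.deg W ≤ T.dim W + 2)
    (hd0 : 1 ≤ T.deg W) :
    ∃ b : ℕ, IsPrimBetti (T.deg W) (T.dim W) b ∧
      ∃ (E O : 𝓝) (i : E ⟶ T.Ku W) (r : T.Ku W ⟶ E) (j : O ⟶ T.Ku W) (s : T.Ku W ⟶ O),
        i ≫ r = 𝟙 E ∧ j ≫ s = 𝟙 O ∧ r ≫ i + s ≫ j = 𝟙 _ ∧
        (Even (T.dim W) → (Kills (-1) E (b + T.deg W) ∧ ¬ Kills (-1) E (b + (T.deg W - 1))) ∧
          IsZero O) ∧
        (Odd (T.dim W) → (Kills (-1) E (T.deg W) ∧ ¬ Kills (-1) E (T.deg W - 1)) ∧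
          Kills 1 O (b + 1) ∧ ¬ Kills 1 O b) :=
  NCData.ku_parts hU hT hW hd hd0

end Pool.Agent.Results.MP_6e5bed_ag.ExactKuznetsovParts
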