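import Pool.Agent.Q20.Kf.Orbit

/-!
# Noncommutative and commutative Kimura finiteness are equivalent for schemes

`C` and `D` are `ℚ`-linear rigid symmetric monoidal categories, `C` is idempotent complete and the
unit object of `D` has only rational scalars as endomorphisms. `F : C ⥤ D` is a faithful `ℚ`-linear
symmetric monoidal functor with a grading by the integers of the groups `Hom (F M) (F N)` whose part
of degree zero is `F (Hom M N)`, compatible with composition and with tensoring with identities.
This is the situation of an orbit category: `Hom (F M) (F N) = ⨁ i, Hom M (N ⊗ T ^ i)`.

Theorem. `F M` is finite-dimensional in the sense of Kimura if and only if `M` is.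

Application: `C = Chow(k)_ℚ`, `D = NChow(k)_ℚ`; by Tabuada the orbit category of `C` with respect to
the Tate motive embeds fully faithfully in `D`, and the motive of a smooth proper scheme `X` is sent
to that of `perf_dg X`. So the noncommutative Chow motive of `perf_dg X` is Kimura-finite if and
only if `K(X)` holds: for the dg categories `perf_dg X` the question is equivalent to the
commutative one. The known implication is the one from `X` to `perf_dg X`.

The idea of the proof. Let `p` be the (not homogeneous) idempotent of `F M` with the image `E`, in
`F M = E ⊕ O`, `E` even and `O` odd. The derivation `d` of `End (F M)` which multiplies the part of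
degree `i` by `i` sends `p` to an element `d p` which exchanges the even and the odd part, so that it
is numerically trivial. As elements of non-zero degree have trace zero, all the homogeneous parts of
`p` of degree different from zero are numerically trivial. So `p` is congruent modulo numerically
trivial endomorphisms to `F x`, `x` in `End M`. Numerically trivial endomorphisms of `F M` are
nilpotent, so `x ^ 2 - x` is nilpotent, `x` can be changed to an idempotent `e`, and `F e` is
conjugate to `p`; the image of `e` is even and that of `1 - e` is odd.
-/

set_option autoImplicit false

open CategoryTheory Limits MonoidalCategory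

namespace Pool.Agent.Results.MP_6e5bed_ag.OrbitCategory

open Pool.Agent.Y112.SR Pool.Agent.Y112.KD Pool.Agent.Q20.Kf

universe v u v' u'

theorem result {C : Type u} [Category.{v} C] [Preadditive C] [Linear ℚ C] [MonoidalCategory C]
    [MonoidalPreadditive C] [MonoidalLinear ℚ C] [SymmetricCategory C] [RightRigidCategory C]
    [IsIdempotentComplete C]
    {D : Type u'} [Category.{v'} D] [Preadditive D] [Linear ℚ D] [MonoidalCategory D]
    [MonoidalPreadditive D] [MonoidalLinear ℚ D] [SymmetricCategory D] [RightRigidCategory D]
    (hU : UnitQ D) (F : C ⥤ D) [F.Braided] [F.Additive] [F.Linear ℚ] [F.Faithful]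
    (A : ∀ M N : C, ℤ → Submodule ℚ (F.obj M ⟶ F.obj N)) (hA : IsHomGrading F A) (M : C) :
    IsKimuraFinite (F.obj M) ↔ IsKimuraFinite M :=
  ⟨hA.reflects hU M, fun h => h.map⟩

end Pool.Agent.Results.MP_6e5bed_ag.OrbitCategory
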