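import Pool.Agent.Q210.KF.Nc

/-!
# Kimura finiteness of noncommutative motives of products of hypersurfaces given by sums of forms

Let `W` be a smooth hypersurface of ARBITRARY dimension `n` and degree `d` with the equation
`f_1 + f_2 + ⋯ + f_r = 0`, the `f_j` forms in disjoint sets of variables, where every `f_j` has at most
two variables, or `d = 3` and every `f_j` has at most four variables (and `f_j` may be replaced by
`f_j - u_j^d`, `u_j` a further variable).

We prove that the noncommutative motives of all admissible subcategories of the derived categories of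
products of such hypersurfaces, curves and abelian varieties are Kimura-finite.
-/

open CategoryTheory MonoidalCategory Limits

universe v u w w' v' u'

namespace Pool.Agent.Results.MP_6e5bed_ag.SumsOfSmallForms

open Pool.Agent.Q28.HJ Pool.Agent.Y112.SR Pool.Agent.Y112.KD Pool.Agent.Q20.Kf Pool.Agent.Q210.KF

/-- **Noncommutative motives of products of sums of small forms.** Let `𝓜` be the Chow motives and
`𝓝` the noncommutative Chow motives over an algebraically closed field of characteristic zero
(rational coefficients), `R` periodic cyclic homology on `𝓝`, `T` the hypersurfaces, abelian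
varieties and the functor `U : 𝓜 ⥤ 𝓝` (`hT`: known facts). Let `M` be a motive obtained by tensor
products, direct sums, direct summands and Tate twists from the motives of abelian varieties and of
the hypersurfaces `W` which are sums, in disjoint sets of variables, of binary forms or of cubic forms
in at most four variables (`IsAbelianSum`), for example the motive of a product. Then every direct
summand `A` of `U(M)` is Kimura-finite, every endomorphism of `A` which is zero on periodic cyclic
homology is nilpotent, and `A = 0` if its periodic cyclic homology is zero. -/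
theorem result {𝓜 : Type u} [Category.{v} 𝓜] [Preadditive 𝓜] [Linear ℚ 𝓜] [MonoidalCategory 𝓜]
    [MonoidalPreadditive 𝓜] [MonoidalLinear ℚ 𝓜] [SymmetricCategory 𝓜]
    {𝓝 : Type u'} [Category.{v'} 𝓝] [Preadditive 𝓝] [Linear ℚ 𝓝] [MonoidalCategory 𝓝]
    [MonoidalPreadditive 𝓝] [MonoidalLinear ℚ 𝓝] [SymmetricCategory 𝓝] [RightRigidCategory 𝓝]
    [IsIdempotentComplete 𝓝] (hU : UnitQ 𝓝) {K : Type w'} [Field K] (R : SuperRealisation 𝓝 K)
    (T : NCData.{v, u, w, v', u'} 𝓜 𝓝) [T.U.Additive] [T.U.Linear ℚ] [T.U.Braided]
    (hT : T.Facts R) (M : 𝓜)
    (hM : GenBy T.L (fun N => T.Ab N ∨ ∃ W, T.IsAbelianSum W ∧ N = T.mot W) M)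
    (A : 𝓝) (hA : Nonempty (Retract A (T.U.obj M))) :
    IsKimuraFinite A ∧ (∀ x : End A, R.H.map (x : A ⟶ A) = 0 → IsNilpotent x) ∧
      (IsZero (R.H.obj A) → IsZero A) :=
  NCData.finite hU hT hM hA

end Pool.Agent.Results.MP_6e5bed_ag.SumsOfSmallForms
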