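import Pool.Agent.Q20.Kf.Main

/-!
# Kimura finiteness descends to the factors of a tensor product

`C` is a `ℚ`-linear idempotent complete rigid symmetric monoidal category whose unit object has only
rational scalars as endomorphisms, with a symmetric monoidal additive functor to finite dimensional
super vector spaces over a field `K`: for example the category of noncommutative Chow motives over a
field of characteristic zero with periodic cyclic homology (over a perfect field of positive
characteristic: topological periodic cyclic homology), or the category of Chow motives over a field
with a Weil cohomology.

Theorem. If the realisations of `M` and `N` do not vanish and `M ⊗ N` is finite-dimensional in the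
sense of Kimura then so are `M` and `N`.

None of the two factors is assumed to be Kimura-finite. In particular the noncommutative motive of
`A` is Kimura-finite as soon as that of some power `A ⊗ ⋯ ⊗ A` or that of `A ⊗ A ᵒᵖ` is.

Steps of the proof. (1) An even (odd) object has an even (odd) realisation, so the parity operator
of `M ⊗ N` is algebraic, and therefore those of `M` and `N` are. (2) Numerically trivial
endomorphisms of `M ⊗ N` are nilpotent; if `x` is a numerically trivial endomorphism of `M` then a
power of `x ⊗ 1` vanishes, and a partial trace twisted by the algebraic parity operator of `N`
shows that a power of `x` vanishes. (3) The parity projectors of `M` and `N` therefore lift to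
idempotents. (4) The tensor product `Y` of a pure piece of `M` and one of `N` is a summand of
the even or of the odd piece of `M ⊗ N`, as the morphisms through the other piece vanish in the
realisation, hence are nilpotent; so an exterior or symmetric power of `Y` vanishes. (5) As the
symmetrized dimensions of the piece of `N` do not vanish, an exterior or symmetric power of the
piece of `M` vanishes.
-/

set_option autoImplicit false

open CategoryTheory Limits MonoidalCategory

namespace Pool.Agent.Results.MP_6e5bed_ag.TensorFactors

open Pool.Agent.Y112.SR Pool.Agent.Y112.KD Pool.Agent.Q20.Kf

universe v u w

theorem result {C : Type u} [Category.{v} C] [Preadditive C] [Linear ℚ C] [MonoidalCategory C]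
    [MonoidalPreadditive C] [MonoidalLinear ℚ C] [SymmetricCategory C] [RightRigidCategory C]
    [IsIdempotentComplete C] (hU : UnitQ C) {K : Type w} [Field K] (R : SuperRealisation C K)
    (M N : C) (hM : ¬ IsZero (R.H.obj M)) (hN : ¬ IsZero (R.H.obj N))
    (h : IsKimuraFinite (M ⊗ N)) : IsKimuraFinite M ∧ IsKimuraFinite N :=
  kimura_factors R hU hM hN h

end Pool.Agent.Results.MP_6e5bed_ag.TensorFactors
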